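import Pool.Agent.L5helper57.LS.Main

/-!
# Long and short edges on complete bipartite graphs: an `∃ℝ`-complete problem

Hardness is shown by a reduction from the realizability of strict sign matrices by points and lines
in the plane (`Pool.Agent.H625R2.SignM`): a row of the matrix is a point, that is a vertex on one
side of the complete bipartite graph, and a column, a line, becomes two vertices on the other side.
A point on the positive side of the line has a short edge to the first vertex and a long edge to
the second one, and vice versa on the negative side. So in a drawing the bisector of the two
vertices separates the points as prescribed. Conversely the points of a realization by points and
lines can be contracted into a small disk in which the unit circles about two suitable points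
approximate a given line; since all inequalities are strict, the drawing can be perturbed to one
without degeneracies.
-/

namespace Pool.Agent.Results.MP_24b35c_lc.BipartiteComplete

open Pool.Agent.NPC Pool.Agent.NPC.ER Pool.Agent.NPC.L5h57.LS

/-- Long/short edge realizability restricted to complete bipartite graphs is `∃ℝ`-complete
(membership and hardness under polynomial-time many-one reductions). Second part: every problem in
`∃ℝ` has a polynomial-time many-one reduction to it all of whose outputs are codes of complete
bipartite graphs with their edges partitioned into short and long ones. -/
theorem result : ERComplete (lang BipLongShort) ∧
    ∀ L : Set (List Bool), InER L → ∃ f : List Bool → Inst,
      PolyTime (fun x => bits (f x)) ∧ (∀ x, Valid (f x)) ∧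
        ∀ x, x ∈ L ↔ Realizable (shortG (f x)) (longG (f x)) :=
  ⟨complete, hard_promise⟩

end Pool.Agent.Results.MP_24b35c_lc.BipartiteComplete
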